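import Pool.Agent.Helper81.XP.StA

set_option autoImplicit false

open Finset
open scoped Pointwise

namespace Pool.Agent.Helper59.XP
open Pool.Agent.Helper81.XP

/-- pairwise intersecting 2-sets: a star or a triangle -/
theorem star_or_tri {Y : Type} [DecidableEq Y] (F : Finset (Finset Y))
    (h2 : ∀ A ∈ F, A.card = 2) (hI : ∀ A ∈ F, ∀ B ∈ F, ∃ y, y ∈ A ∧ y ∈ B) (hne : F.Nonempty) :
    (∃ c, ∀ A ∈ F, c ∈ A) ∨ (∃ T : Finset Y, T.card ≤ 3 ∧ ∀ A ∈ F, A ⊆ T) := by
  obtain ⟨A, hA⟩ := hne
  obtain ⟨x, y, hxy, rfl⟩ := Finset.card_eq_two.1 (h2 A hA)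
  by_cases h1 : ∀ A ∈ F, x ∈ A
  · exact Or.inl ⟨x, h1⟩
  by_cases h1' : ∀ A ∈ F, y ∈ A
  · exact Or.inl ⟨y, h1'⟩
  push Not at h1 h1'
  obtain ⟨B, hB, hxB⟩ := h1
  obtain ⟨C, hC, hyC⟩ := h1'
  right
  have hyB : y ∈ B := by
    obtain ⟨w, hw1, hw2⟩ := hI _ hA B hB
    simp only [mem_insert, mem_singleton] at hw1
    rcases hw1 with rfl | rfl
    · exact absurd hw2 hxB
    · exact hw2
  have hxC : x ∈ C := by
    obtain ⟨w, hw1, hw2⟩ := hI _ hA C hC
    simp only [mem_insert, mem_singleton] at hw1
    rcases hw1 with rfl | rfl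
    · exact hw2
    · exact absurd hw2 hyC
  obtain ⟨z, hzB, hzC⟩ := hI B hB C hC
  have hzx : z ≠ x := fun h => hxB (h ▸ hzB)
  have hzy : z ≠ y := fun h => hyC (h ▸ hzC)
  have hBe : B = {y, z} := by
    symm
    apply Finset.eq_of_subset_of_card_le
    · intro w hw
      simp only [mem_insert, mem_singleton] at hw
      rcases hw with rfl | rfl
      · exact hyB
      · exact hzB
    · rw [h2 B hB, Finset.card_pair (Ne.symm hzy)]
  have hCe : C = {x, z} := by
    symm
    apply Finset.eq_of_subset_of_card_le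
    · intro w hw
      simp only [mem_insert, mem_singleton] at hw
      rcases hw with rfl | rfl
      · exact hxC
      · exact hzC
    · rw [h2 C hC, Finset.card_pair (Ne.symm hzx)]
  refine ⟨{x, y, z}, Finset.card_le_three, ?_⟩
  intro D hD
  obtain ⟨u, v, huv, rfl⟩ := Finset.card_eq_two.1 (h2 D hD)
  have hDA := hI _ hD _ hA
  have hDB := hI _ hD B hB
  have hDC := hI _ hD C hC
  rw [hBe] at hDB
  rw [hCe] at hDC
  simp only [mem_insert, mem_singleton] at hDA hDB hDC
  intro w hw
  simp only [mem_insert, mem_singleton] at hw ⊢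
  obtain ⟨a, ha1, ha2⟩ := hDA
  obtain ⟨b, hb1, hb2⟩ := hDB
  obtain ⟨c, hc1, hc2⟩ := hDC
  by_contra hcon
  push Not at hcon
  obtain ⟨hwx, hwy, hwz⟩ := hcon
  rcases hw with rfl | rfl
  · have ha : a = v := by
      rcases ha1 with h | h
      · rcases ha2 with h' | h'
        · exact absurd (h.symm.trans h') hwx
        · exact absurd (h.symm.trans h') hwy
      · exact h
    have hb : b = v := by
      rcases hb1 with h | h
      · rcases hb2 with h' | h'
        · exact absurd (h.symm.trans h') hwy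
        · exact absurd (h.symm.trans h') hwz
      · exact h
    have hc : c = v := by
      rcases hc1 with h | h
      · rcases hc2 with h' | h'
        · exact absurd (h.symm.trans h') hwx
        · exact absurd (h.symm.trans h') hwz
      · exact h
    subst ha
    rw [hb] at hb2
    rw [hc] at hc2
    rcases ha2 with h | h
    · rcases hb2 with h' | h'
      · exact hxy (h.symm.trans h')
      · exact hzx (h'.symm.trans h)
    · rcases hc2 with h' | h'
      · exact hxy (h'.symm.trans h)
      · exact hzy (h'.symm.trans h)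
  · have ha : a = u := by
      rcases ha1 with h | h
      · exact h
      · rcases ha2 with h' | h'
        · exact absurd (h.symm.trans h') hwx
        · exact absurd (h.symm.trans h') hwy
    have hb : b = u := by
      rcases hb1 with h | h
      · exact h
      · rcases hb2 with h' | h'
        · exact absurd (h.symm.trans h') hwy
        · exact absurd (h.symm.trans h') hwz
    have hc : c = u := by
      rcases hc1 with h | h
      · exact h
      · rcases hc2 with h' | h'
        · exact absurd (h.symm.trans h') hwx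
        · exact absurd (h.symm.trans h') hwz
    subst ha
    rw [hb] at hb2
    rw [hc] at hc2
    rcases ha2 with h | h
    · rcases hb2 with h' | h'
      · exact hxy (h.symm.trans h')
      · exact hzx (h'.symm.trans h)
    · rcases hc2 with h' | h'
      · exact hxy (h'.symm.trans h)
      · exact hzy (h'.symm.trans h)

theorem st_ESC : ST_ESC := by
  classical
  intro Γ Y _ _ S h1S hsym hinv Φ hΦ
  by_contra hcon
  push Not at hcon
  -- the families
  let F : ℕ → Finset (Finset Y) := fun j => (S ^ j).image (fun g => g • Φ)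
  have hmono : ∀ j, S ^ j ⊆ S ^ (j + 1) := fun j => by
    rw [pow_succ]
    exact Finset.subset_mul_left _ h1S
  have hF1 : ∀ j, F j ⊆ F (j + 1) := fun j => Finset.image_subset_image (hmono j)
  have hF2 : ∀ j, ∀ s ∈ S, ∀ A ∈ F j, s • A ∈ F (j + 1) := by
    intro j s hs A hA
    obtain ⟨g, hg, rfl⟩ := Finset.mem_image.1 hA
    refine Finset.mem_image.2 ⟨s * g, ?_, ?_⟩
    · rw [pow_succ']
      exact Finset.mul_mem_mul hs hg
    · exact mul_smul s g Φ
  have hF3 : ∀ j, ∀ A ∈ F j, A.card = 2 := by
    intro j A hA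
    obtain ⟨g, hg, rfl⟩ := Finset.mem_image.1 hA
    rw [Finset.card_smul_finset, hΦ]
  have hF0 : ∀ j, Φ ∈ F j := by
    intro j
    refine Finset.mem_image.2 ⟨1, Finset.one_mem_pow h1S, one_smul _ _⟩
  have hF4 : ∀ A ∈ F 4, ∀ B ∈ F 4, ∃ y, y ∈ A ∧ y ∈ B := by
    intro A hA B hB
    obtain ⟨g, hg, rfl⟩ := Finset.mem_image.1 hA
    obtain ⟨h, hh, rfl⟩ := Finset.mem_image.1 hB
    have h8 : h⁻¹ * g ∈ S ^ 8 := by
      have : S ^ 8 = S ^ 4 * S ^ 4 := by rw [← pow_add]
      rw [this]
      refine Finset.mul_mem_mul ?_ hg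
      have h5 : (S ^ 4)⁻¹ = S ^ 4 := by rw [← inv_pow, hsym]
      rw [← h5]
      exact Finset.inv_mem_inv hh
    obtain ⟨y, hy, hy2⟩ := hcon _ h8
    refine ⟨g • y, Finset.smul_mem_smul_finset hy, ?_⟩
    have : g • y = h • ((h⁻¹ * g) • y) := by
      rw [mul_smul, smul_inv_smul]
    rw [this]
    exact Finset.smul_mem_smul_finset hy2
  rcases star_or_tri (F 4) (hF3 4) hF4 ⟨Φ, hF0 4⟩ with ⟨c, hc⟩ | ⟨T, hT, hTF⟩
  · have hc3 : ∀ s ∈ S, ∀ A ∈ F 3, s • c ∈ A := by
      intro s hs A hA
      have hs' : s⁻¹ ∈ S := by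
        rw [← hsym]
        exact Finset.inv_mem_inv hs
      have := hc _ (hF2 3 s⁻¹ hs' A hA)
      obtain ⟨a, ha, ha2⟩ := Finset.mem_smul_finset.1 this
      rw [← ha2, smul_inv_smul]
      exact ha
    by_cases hfix : ∀ s ∈ S, s • c = c
    · obtain ⟨g, hg, y, hy, hgy⟩ := hinv {c} (Finset.singleton_nonempty c) (by simp)
      rw [Finset.mem_singleton] at hy
      subst hy
      exact hgy (by rw [hfix g hg]; simp)
    · push Not at hfix
      obtain ⟨s, hs, hsc⟩ := hfix
      have hall : ∀ A ∈ F 3, A = {c, s • c} := by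
        intro A hA
        symm
        apply Finset.eq_of_subset_of_card_le
        · intro w hw
          simp only [mem_insert, mem_singleton] at hw
          rcases hw with rfl | rfl
          · have := hc3 1 h1S A hA
            rwa [one_smul] at this
          · exact hc3 s hs A hA
        · rw [hF3 3 A hA, Finset.card_pair (Ne.symm hsc)]
      obtain ⟨g, hg, y, hy, hgy⟩ := hinv Φ (Finset.card_pos.1 (by omega)) (by omega)
      apply hgy
      have e1 := hall Φ (hF0 3)
      have e2 := hall (g • Φ) (hF1 2 (hF2 1 g hg Φ (hF0 1)))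
      rw [e1, ← e2]
      exact Finset.smul_mem_smul_finset hy
  · have hc3 : (F 4).card ≤ 3 := by
      calc (F 4).card ≤ (T.powersetCard 2).card := by
            apply Finset.card_le_card
            intro A hA
            exact Finset.mem_powersetCard.2 ⟨hTF A hA, hF3 4 A hA⟩
        _ = T.card.choose 2 := Finset.card_powersetCard 2 T
        _ ≤ Nat.choose 3 2 := Nat.choose_le_choose 2 hT
        _ = 3 := by decide
    have hc0 : 1 ≤ (F 0).card := Finset.card_pos.2 ⟨Φ, hF0 0⟩
    have hstep : ∃ j, j ≤ 3 ∧ F j = F (j + 1) := by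
      by_contra hno
      push Not at hno
      have hlt : ∀ j, j ≤ 3 → (F j).card < (F (j + 1)).card := fun j hj =>
        Finset.card_lt_card (Finset.ssubset_iff_subset_ne.2 ⟨hF1 j, hno j hj⟩)
      have a0 := hlt 0 (by omega)
      have a1 := hlt 1 (by omega)
      have a2 := hlt 2 (by omega)
      have a3 := hlt 3 (by omega)
      simp only [Nat.zero_add, Nat.reduceAdd] at a0 a1 a2 a3
      omega
    obtain ⟨j, hj, hje⟩ := hstep
    have hsubj : F j ⊆ F 4 := by
      have hm : ∀ i, F j ⊆ F (j + i) := by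
        intro i
        induction i with
        | zero => exact Finset.Subset.refl _
        | succ i ih => exact ih.trans (hF1 _)
      have := hm (4 - j)
      rwa [Nat.add_sub_cancel' (by omega : j ≤ 4)] at this
    have hU : ((F j).biUnion id) ⊆ T := by
      intro w hw
      obtain ⟨A, hA, hwA⟩ := Finset.mem_biUnion.1 hw
      exact hTF A (hsubj hA) hwA
    have hΦne : Φ.Nonempty := Finset.card_pos.1 (by omega)
    obtain ⟨w, hw⟩ := hΦne
    obtain ⟨g, hg, y, hy, hgy⟩ := hinv ((F j).biUnion id)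
      ⟨w, Finset.mem_biUnion.2 ⟨Φ, hF0 j, hw⟩⟩ ((Finset.card_le_card hU).trans hT)
    apply hgy
    obtain ⟨A, hA, hyA⟩ := Finset.mem_biUnion.1 hy
    refine Finset.mem_biUnion.2 ⟨g • A, ?_, Finset.smul_mem_smul_finset hyA⟩
    rw [hje]
    exact hF2 j g hg A hA

end Pool.Agent.Helper59.XP
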