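import Pool.Agent.Helper81.XP.StB

set_option autoImplicit false

open Finset

namespace Pool.Agent.Helper59.XP
open Pool.Agent.Helper81.XP

theorem st_RED : ST_RED := by
  intro k _ K _ _ O e P hO hP
  have hc : ∀ c : k, O.valuation (algebraMap k K c) ≤ 1 := fun c =>
    (ValuationSubring.valuation_le_one_iff O _).2 (hO c)
  have hPv : ∀ i, O.valuation (P i) ≤ 1 := by
    intro i
    have h1 : P i = (P i - algebraMap k K (e i)) + algebraMap k K (e i) := by ring
    rw [h1]
    exact (Valuation.map_add _ _ _).trans (max_le (hP i).le (hc _))
  have main : ∀ Φ : MvPolynomial (Fin 3) k,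
      O.valuation (MvPolynomial.aeval P Φ - algebraMap k K (MvPolynomial.eval e Φ)) < 1 ∧
      O.valuation (MvPolynomial.aeval P Φ) ≤ 1 := by
    intro Φ
    have key : O.valuation (MvPolynomial.aeval P Φ - algebraMap k K (MvPolynomial.eval e Φ)) < 1 →
        O.valuation (MvPolynomial.aeval P Φ) ≤ 1 := by
      intro h
      have h1 : MvPolynomial.aeval P Φ = (MvPolynomial.aeval P Φ -
          algebraMap k K (MvPolynomial.eval e Φ)) + algebraMap k K (MvPolynomial.eval e Φ) := by
        ring
      rw [h1]
      exact (Valuation.map_add _ _ _).trans (max_le h.le (hc _))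
    induction Φ using MvPolynomial.induction_on with
    | C a =>
      have h0 : O.valuation (MvPolynomial.aeval P (MvPolynomial.C a) -
          algebraMap k K (MvPolynomial.eval e (MvPolynomial.C a))) < 1 := by
        rw [MvPolynomial.aeval_C, MvPolynomial.eval_C, sub_self, Valuation.map_zero]
        exact zero_lt_one
      exact ⟨h0, key h0⟩
    | add p q hp hq =>
      have h0 : O.valuation (MvPolynomial.aeval P (p + q) -
          algebraMap k K (MvPolynomial.eval e (p + q))) < 1 := by
        have h1 : MvPolynomial.aeval P (p + q) - algebraMap k K (MvPolynomial.eval e (p + q)) =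
            (MvPolynomial.aeval P p - algebraMap k K (MvPolynomial.eval e p)) +
            (MvPolynomial.aeval P q - algebraMap k K (MvPolynomial.eval e q)) := by
          rw [map_add, map_add, map_add]
          ring
        rw [h1]
        have hp1 : O.valuation (MvPolynomial.aeval P p -
            algebraMap k K (MvPolynomial.eval e p)) < 1 := by
          refine (hp ?_).1
          intro h
          have h2 : MvPolynomial.aeval P p = (MvPolynomial.aeval P p -
              algebraMap k K (MvPolynomial.eval e p)) +
              algebraMap k K (MvPolynomial.eval e p) := by ring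
          rw [h2]
          exact (Valuation.map_add _ _ _).trans (max_le h.le (hc _))
        have hq1 : O.valuation (MvPolynomial.aeval P q -
            algebraMap k K (MvPolynomial.eval e q)) < 1 := by
          refine (hq ?_).1
          intro h
          have h2 : MvPolynomial.aeval P q = (MvPolynomial.aeval P q -
              algebraMap k K (MvPolynomial.eval e q)) +
              algebraMap k K (MvPolynomial.eval e q) := by ring
          rw [h2]
          exact (Valuation.map_add _ _ _).trans (max_le h.le (hc _))
        exact (Valuation.map_add _ _ _).trans_lt (max_lt hp1 hq1)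
      exact ⟨h0, key h0⟩
    | mul_X p i hp =>
      have hp' : O.valuation (MvPolynomial.aeval P p -
            algebraMap k K (MvPolynomial.eval e p)) < 1 ∧
            O.valuation (MvPolynomial.aeval P p) ≤ 1 := by
        apply hp
        intro h
        have h2 : MvPolynomial.aeval P p = (MvPolynomial.aeval P p -
            algebraMap k K (MvPolynomial.eval e p)) +
            algebraMap k K (MvPolynomial.eval e p) := by ring
        rw [h2]
        exact (Valuation.map_add _ _ _).trans (max_le h.le (hc _))
      have h0 : O.valuation (MvPolynomial.aeval P (p * MvPolynomial.X i) -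
          algebraMap k K (MvPolynomial.eval e (p * MvPolynomial.X i))) < 1 := by
        have h1 : MvPolynomial.aeval P (p * MvPolynomial.X i) -
            algebraMap k K (MvPolynomial.eval e (p * MvPolynomial.X i)) =
            MvPolynomial.aeval P p * (P i - algebraMap k K (e i)) +
            (MvPolynomial.aeval P p - algebraMap k K (MvPolynomial.eval e p)) *
              algebraMap k K (e i) := by
          rw [map_mul, map_mul, map_mul, MvPolynomial.aeval_X, MvPolynomial.eval_X]
          ring
        rw [h1]
        refine (Valuation.map_add _ _ _).trans_lt (max_lt ?_ ?_)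
        · rw [Valuation.map_mul]
          calc O.valuation (MvPolynomial.aeval P p) * O.valuation (P i - algebraMap k K (e i))
              ≤ 1 * O.valuation (P i - algebraMap k K (e i)) := mul_le_mul_left hp'.2 _
            _ = O.valuation (P i - algebraMap k K (e i)) := one_mul _
            _ < 1 := hP i
        · rw [Valuation.map_mul]
          calc O.valuation (MvPolynomial.aeval P p - algebraMap k K (MvPolynomial.eval e p)) *
                O.valuation (algebraMap k K (e i))
              ≤ O.valuation (MvPolynomial.aeval P p - algebraMap k K (MvPolynomial.eval e p)) * 1 :=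
                mul_le_mul_right (hc _) _
            _ = O.valuation (MvPolynomial.aeval P p - algebraMap k K (MvPolynomial.eval e p)) :=
                mul_one _
            _ < 1 := hp'.1
      exact ⟨h0, key h0⟩
  refine ⟨fun Φ => (main Φ).1, ?_⟩
  have tr : ∀ Φ : MvPolynomial (Fin 3) k, MvPolynomial.eval e Φ ≠ 0 →
      MvPolynomial.aeval P Φ ≠ 0 := by
    intro Φ h0 h1
    have h2 := (main Φ).1
    rw [h1, zero_sub, Valuation.map_neg] at h2
    have h3 : O.valuation (algebraMap k K (MvPolynomial.eval e Φ)) *
        O.valuation (algebraMap k K (MvPolynomial.eval e Φ)⁻¹) = 1 := by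
      rw [← Valuation.map_mul, ← map_mul, mul_inv_cancel₀ h0, map_one, map_one]
    have h4 : O.valuation (algebraMap k K (MvPolynomial.eval e Φ)) *
        O.valuation (algebraMap k K (MvPolynomial.eval e Φ)⁻¹) < 1 := by
      calc _ ≤ O.valuation (algebraMap k K (MvPolynomial.eval e Φ)) * 1 :=
            mul_le_mul_right (hc _) _
        _ = O.valuation (algebraMap k K (MvPolynomial.eval e Φ)) := mul_one _
        _ < 1 := h2
    exact absurd h3 h4.ne
  rintro ⟨g1, g2, g3, g4, g5⟩
  have x0 := tr (MvPolynomial.X 0)
  have x1 := tr (MvPolynomial.X 1)
  have x2 := tr (MvPolynomial.X 2)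
  have xs := tr (MvPolynomial.X 2 ^ 2 + 1)
  have xk := tr (kap (fun i => (MvPolynomial.X i : MvPolynomial (Fin 3) k)))
  simp only [kap, map_add, map_sub, map_mul, map_pow, map_one, MvPolynomial.eval_X,
    MvPolynomial.aeval_X, map_ofNat] at x0 x1 x2 xs xk
  refine ⟨x2 g1, ?_, ?_, ?_, ?_⟩
  · unfold kap at g2 ⊢
    exact xk g2
  · exact g3.imp x0 x1
  · exact g4.imp x0 xs
  · exact g5.imp x1 xs

end Pool.Agent.Helper59.XP
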